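import Pool.Agent.Helper29.SH.Goals

/-!
# Packet SH-SSUB: subgroups of Shunkov groups are Shunkov groups (project SH, MP_0a002a_al)
-/

set_option autoImplicit false

namespace Pool.Agent.Helper27.SH

open Subgroup Pool.Agent.Helper29.SH

/-- The image of an element of the normaliser of `H` normalises the image of `H`. -/
theorem map_mem_normalizer {G K : Type} [Group G] [Group K] (f : K →* G) (H : Subgroup K) (x : K)
    (hx : x ∈ Subgroup.normalizer (H : Set K)) :
    f x ∈ Subgroup.normalizer ((H.map f : Subgroup G) : Set G) := by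
  have hx' := Subgroup.mem_normalizer_iff.1 hx
  rw [Subgroup.mem_normalizer_iff]
  intro g
  constructor
  · intro hg
    obtain ⟨h, hh, rfl⟩ := hg
    exact ⟨x * h * x⁻¹, (hx' h).1 hh, by simp⟩
  · intro hg
    obtain ⟨h, hh, he⟩ := hg
    refine ⟨x⁻¹ * h * x, (hx' _).2 ?_, ?_⟩
    · have : x * (x⁻¹ * h * x) * x⁻¹ = h := by group
      rw [this]; exact hh
    · rw [map_mul, map_mul, he, map_inv]; group

theorem t_SSUB : S_SSUB := by
  intro G K _ _ f hf hG H hH x y n p hp hx hy hn hxp hxH hnx
  have hfin : ((H.map f : Subgroup G) : Set G).Finite := by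
    rw [Subgroup.coe_map]; exact hH.image f
  have h := hG (H.map f) hfin (f x) (f y) (f n) p hp (map_mem_normalizer f H x hx)
    (map_mem_normalizer f H y hy) (map_mem_normalizer f H n hn)
    ⟨x ^ p, hxp, by simp⟩
    (by
      rintro ⟨h, hh, he⟩
      exact hxH (hf he ▸ hh))
    ⟨(n * x * n⁻¹)⁻¹ * y, hnx, by simp⟩
  have e : (Subgroup.closure (({x, y} : Set K) ∪ (H : Set K))).map f
      = Subgroup.closure (({f x, f y} : Set G) ∪ ((H.map f : Subgroup G) : Set G)) := by
    rw [MonoidHom.map_closure, Set.image_union, Set.image_pair, Subgroup.coe_map]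
  rw [← e, Subgroup.coe_map] at h
  exact Set.Finite.of_finite_image h hf.injOn

end Pool.Agent.Helper27.SH
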